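import Pool.Agent.H39.Newt3.Base

/-! # Project NEWTON3, module KEY: no pole of the ratio `-α` -/

set_option autoImplicit false

namespace Pool.Newt3

open MvPolynomial Pool.Agent.H39.MonoR Pool.Agent.H75.Mono Pool.Newt Pool.Newt2

namespace KEY

section General

variable {σ I : Type}

/-- the factors are shifted, real version -/
def shfR (φ : Co σ I → ℤ → ℝ) (m : I → ℤ) : Co σ I → ℤ → ℝ
  | none => φ none
  | some (Sum.inl l) => φ (some (Sum.inl l))
  | some (Sum.inr i) => fun v => φ (some (Sum.inr i)) (v - m i)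

/-- complexification -/
noncomputable def cx (φ : Co σ I → ℤ → ℝ) : Co σ I → ℤ → ℂ := fun ξ v => (φ ξ v : ℂ)

theorem shf_cx (φ : Co σ I → ℤ → ℝ) (m : I → ℤ) : shf (cx φ) m = cx (shfR φ m) := by
  funext ξ
  rcases ξ with _ | l | i <;> rfl

theorem thr_shfR [Fintype I] {φ : Co σ I → ℤ → ℝ} (h : ∀ ξ, Thr 1 (φ ξ)) (m : I → ℤ) (ξ : Co σ I) :
    Thr (1 + ∑ i, (m i).natAbs) (shfR φ m ξ) := by
  rcases ξ with _ | l | i
  · exact (h none).mono (by omega)
  · exact (h (some (Sum.inl l))).mono (by omega)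
  · exact (h (some (Sum.inr i))).shift
      (Finset.single_le_sum (f := fun i => (m i).natAbs) (fun _ _ => Nat.zero_le _)
        (Finset.mem_univ i))

variable [Fintype σ] [Fintype I] (a : I → σ → ℕ)

theorem oks_cx (hSum : SSum) {X : ℝ} (hX : 0 < X) (hX1 : X < 1) {φ : Co σ I → ℤ → ℝ}
    (h : ∀ ξ, Thr 1 (φ ξ)) : OKs a (X : ℂ) (cx φ) := by
  intro m N
  rw [shf_cx]
  have h1 := hSum σ I a X hX hX1 _ (shfR φ m) (thr_shfR h m) N
  have h2 : (fun u : σ → ℤ => (∏ ξ, cx (shfR φ m) ξ (lam a u N ξ)) * (X : ℂ) ^ (∑ l, u l)) =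
      fun u : σ → ℤ => (((∏ ξ, shfR φ m ξ (lam a u N ξ)) * X ^ (∑ l, u l) : ℝ) : ℂ) := by
    funext u
    push_cast
    rfl
  rw [h2]
  exact Complex.ofRealCLM.summable h1

theorem prod_scale {Ξ : Type*} [Fintype Ξ] (F F' : Ξ → ℂ) (ξ0 : Ξ) (c : ℂ)
    (h0 : F' ξ0 = c * F ξ0) (h : ∀ ξ, ξ ≠ ξ0 → F' ξ = F ξ) : ∏ ξ, F' ξ = c * ∏ ξ, F ξ := by
  classical
  rw [← Finset.mul_prod_erase Finset.univ F' (Finset.mem_univ ξ0),
    ← Finset.mul_prod_erase Finset.univ F (Finset.mem_univ ξ0), h0, mul_assoc,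
    Finset.prod_congr rfl fun ξ hξ => h ξ (Finset.ne_of_mem_erase hξ)]

theorem lc_scale (X : ℂ) {φ φ' : Co σ I → ℤ → ℂ} (i : I) (c : ℂ)
    (h : ∀ ξ, ξ ≠ some (Sum.inr i) → φ' ξ = φ ξ)
    (h0 : ∀ v, φ' (some (Sum.inr i)) v = c * φ (some (Sum.inr i)) v) (g : GR I) :
    Lc a X φ' g = c • Lc a X φ g := by
  have key : ∀ m : I → ℤ, SerC a X (shf φ' m) = c • SerC a X (shf φ m) := by
    intro m
    ext N
    rw [PowerSeries.coeff_smul]
    unfold SerC
    rw [PowerSeries.coeff_mk, PowerSeries.coeff_mk, smul_eq_mul, ← tsum_mul_left]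
    refine tsum_congr fun u => ?_
    rw [← mul_assoc]
    refine congrArg (fun y => y * X ^ (∑ l, u l)) ?_
    refine prod_scale (fun ξ => shf φ m ξ (lam a u N ξ)) (fun ξ => shf φ' m ξ (lam a u N ξ))
      (some (Sum.inr i)) c (h0 _) ?_
    intro ξ hξ
    rcases ξ with _ | l | j
    · show φ' none _ = φ none _
      rw [h none hξ]
    · show φ' (some (Sum.inl l)) _ = φ (some (Sum.inl l)) _
      rw [h _ hξ]
    · show φ' (some (Sum.inr j)) _ = φ (some (Sum.inr j)) _
      rw [h _ hξ]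
  induction g using AddMonoidAlgebra.induction_linear with
  | zero => rw [map_zero, map_zero, smul_zero]
  | add f g hf hg => rw [map_add, map_add, hf, hg, smul_add]
  | single m d => rw [Lc_single, Lc_single, key, smul_comm]

end General

section Phi

variable {σ I : Type}

open Classical in
/-- the factors: `δ_0` on `P`, `g` on `T`, `1_{≥ 0}` for the other exponents -/
noncomputable def phT (x : ℝ) (P T : Finset I) : Co σ I → ℤ → ℝ
  | none => fun v => if 1 ≤ v then 1 else 0
  | some (Sum.inl _) => fun v => if 0 ≤ v then 1 else 0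
  | some (Sum.inr i) => fun v =>
      if i ∈ P then (if v = 0 then 1 else 0)
      else if i ∈ T then (if v < 0 then 0 else if v = 0 then -1 / (x - 1) else 1)
      else (if 0 ≤ v then 1 else 0)

theorem phT_thr (x : ℝ) (P T : Finset I) (ξ : Co σ I) : Thr 1 (phT x P T ξ) := by
  rcases ξ with _ | l | i
  · refine ⟨fun v hv => ?_, fun v hv => ?_⟩
    · show (if 1 ≤ v then (1 : ℝ) else 0) = 0
      rw [if_neg (by omega)]
    · show (if 1 ≤ v then (1 : ℝ) else 0) = (if (1 : ℤ) ≤ ((1 : ℕ) : ℤ) then (1 : ℝ) else 0)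
      rw [if_pos (by omega), if_pos (by omega)]
  · refine ⟨fun v hv => ?_, fun v hv => ?_⟩
    · show (if 0 ≤ v then (1 : ℝ) else 0) = 0
      rw [if_neg (by omega)]
    · show (if 0 ≤ v then (1 : ℝ) else 0) = (if (0 : ℤ) ≤ ((1 : ℕ) : ℤ) then (1 : ℝ) else 0)
      rw [if_pos (by omega), if_pos (by omega)]
  · refine ⟨fun v hv => ?_, fun v hv => ?_⟩
    · unfold phT
      dsimp only
      split_ifs <;> first | rfl | (exfalso; omega)
    · unfold phT
      dsimp only
      split_ifs <;> first | rfl | (exfalso; omega)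

theorem phz_eq (x : ℝ) (P : Finset I) : phz P = cx (phT (σ := σ) x P ∅) := by
  funext ξ v
  unfold cx
  rcases ξ with _ | l | i
  · show (if 1 ≤ v then (1 : ℂ) else 0) = (((if 1 ≤ v then (1 : ℝ) else 0) : ℝ) : ℂ)
    split_ifs <;> simp
  · show (if 0 ≤ v then (1 : ℂ) else 0) = (((if 0 ≤ v then (1 : ℝ) else 0) : ℝ) : ℂ)
    split_ifs <;> simp
  · unfold phz phT
    dsimp only
    rw [if_neg (Finset.notMem_empty i)]
    split_ifs <;> simp

variable [Fintype I]

theorem phi_eq [DecidableEq I] (x : ℝ) (P : Finset I) :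
    phi (σ := σ) x P Finset.univ = phT (σ := σ) x P Pᶜ := by
  funext ξ v
  rcases ξ with _ | l | i
  · rfl
  · rfl
  · unfold phi phT
    dsimp only
    by_cases hi : i ∈ P
    · rw [if_pos hi, if_pos hi]
    · rw [if_neg hi, if_neg hi, if_pos (Finset.mem_univ i), if_pos (Finset.mem_compl.2 hi)]

end Phi

section Step

variable {σ I : Type} [Fintype σ] [Fintype I] (a : I → σ → ℕ)

open Classical in
theorem step (hRla : SRla) (hSum : SSum) {x : ℝ} (hx : 1 < x) (P T : Finset I)
    (i : I) (hiP : i ∉ P) (hiT : i ∉ T) (g : GR I) :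
    Lc a ((x : ℂ)⁻¹) (cx (phT x P T)) ((AddMonoidAlgebra.single (Pi.single i 1) 1 -
      AddMonoidAlgebra.single 0 ((x : ℂ)⁻¹)) * g) =
      (((x : ℂ) - 1) / x) • Lc a ((x : ℂ)⁻¹) (cx (phT x P (insert i T))) g := by
  have hx0 : 0 < x := zero_lt_one.trans hx
  have hxc : (x : ℂ) ≠ 0 := Complex.ofReal_ne_zero.2 hx0.ne'
  have hx1 : (x : ℂ) - 1 ≠ 0 := by
    rw [← Complex.ofReal_one, ← Complex.ofReal_sub]
    exact Complex.ofReal_ne_zero.2 (sub_pos.2 hx).ne'
  have hok : OKs a ((x : ℂ)⁻¹) (cx (phT x P T)) := by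
    have := oks_cx a hSum (inv_pos.2 hx0) (inv_lt_one_of_one_lt₀ hx) (phT_thr (σ := σ) x P T)
    rwa [Complex.ofReal_inv] at this
  have e1 : (AddMonoidAlgebra.single (Pi.single i 1) 1 -
      AddMonoidAlgebra.single 0 ((x : ℂ)⁻¹) : GR I) = (-(x : ℂ)⁻¹) •
      (1 - AddMonoidAlgebra.single (Pi.single i 1) (x : ℂ)) := by
    rw [smul_sub, AddMonoidAlgebra.smul_single, smul_eq_mul, neg_mul, inv_mul_cancel₀ hxc,
      show (1 : GR I) = AddMonoidAlgebra.single 0 1 from rfl, AddMonoidAlgebra.smul_single,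
      smul_eq_mul, mul_one, AddMonoidAlgebra.single_neg, AddMonoidAlgebra.single_neg]
    abel
  have h1 := (hRla σ I a ((x : ℂ)⁻¹) (cx (phT x P T)) hok i (x : ℂ)).2 g
  rw [e1, smul_mul_assoc, map_smul, h1,
    lc_scale a ((x : ℂ)⁻¹) (φ := cx (phT x P (insert i T))) i (1 - (x : ℂ)) ?_ ?_ g]
  · rw [smul_smul]
    refine congrArg (fun y : ℂ => y • _) ?_
    field_simp
    ring
  · intro ξ hξ
    rw [Function.update_of_ne hξ]
    funext v
    unfold cx
    rcases ξ with _ | l | j
    · rfl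
    · rfl
    · have hj : j ≠ i := fun h => hξ (by rw [h])
      unfold phT
      dsimp only
      by_cases h1 : j ∈ P
      · rw [if_pos h1, if_pos h1]
      · rw [if_neg h1, if_neg h1]
        by_cases h2 : j ∈ T
        · rw [if_pos h2, if_pos (Finset.mem_insert_of_mem h2)]
        · rw [if_neg h2, if_neg (fun h => h2 (Finset.mem_of_mem_insert_of_ne h hj))]
  · intro v
    rw [Function.update_self]
    unfold cx phT
    dsimp only
    rw [if_neg hiP, if_neg hiP, if_neg hiP, if_neg hiT, if_neg hiT,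
      if_pos (Finset.mem_insert_self i T)]
    rcases lt_trichotomy v 0 with hv | hv | hv
    · rw [if_neg (by omega), if_neg (by omega), if_pos hv]
      simp
    · rw [if_pos (by omega), if_neg (by omega), if_neg (by omega), if_pos hv]
      push_cast
      field_simp
      ring
    · rw [if_pos (by omega), if_pos (by omega), if_neg (by omega), if_neg (by omega)]
      push_cast
      ring

open Classical in
theorem steps (hRla : SRla) (hSum : SSum) {x : ℝ} (hx : 1 < x) (P : Finset I)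
    (T : Finset I) (hT : ∀ i ∈ T, i ∉ P) (g : GR I) :
    Lc a ((x : ℂ)⁻¹) (phz P) ((∏ i ∈ T, (AddMonoidAlgebra.single (Pi.single i 1) 1 -
      AddMonoidAlgebra.single 0 ((x : ℂ)⁻¹))) * g) =
      (((x : ℂ) - 1) / x) ^ T.card • Lc a ((x : ℂ)⁻¹) (cx (phT x P T)) g := by
  induction T using Finset.induction_on generalizing g with
  | empty =>
    rw [Finset.prod_empty, one_mul, Finset.card_empty, pow_zero, one_smul, phz_eq x P]
  | insert i T hi ih =>
    rw [Finset.prod_insert hi, mul_comm (AddMonoidAlgebra.single (Pi.single i 1) 1 -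
      AddMonoidAlgebra.single 0 ((x : ℂ)⁻¹) : GR I), mul_assoc,
      ih (fun j hj => hT j (Finset.mem_insert_of_mem hj)),
      step a hRla hSum hx P T i (hT i (Finset.mem_insert_self i T)) hi, smul_smul,
      Finset.card_insert_of_notMem hi, pow_succ]

end Step

section Den

variable {σ I : Type} [Fintype σ] [Fintype I] (a : I → σ → ℕ)

/-- `1 - x^(-|w|) T^N(w)` -/
noncomputable def den (x : ℝ) (w : σ → ℕ) : Polynomial ℂ :=
  1 - Polynomial.C ((x : ℂ)⁻¹ ^ (∑ l, w l)) * Polynomial.X ^ (Nw a w)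

omit [Fintype I] in
theorem coe_den (x : ℝ) (W : Multiset (σ → ℕ)) :
    (((W.map (den a x)).prod : Polynomial ℂ) : PowerSeries ℂ) =
      PowerSeries.map Complex.ofRealHom (dW a x⁻¹ W) := by
  induction W using Multiset.induction_on with
  | empty => simp [dW]
  | cons w W ih =>
    rw [Multiset.map_cons, Multiset.prod_cons, Polynomial.coe_mul, ih]
    unfold dW
    rw [Multiset.map_cons, Multiset.prod_cons, map_mul]
    refine congrArg (fun y => y * _) ?_
    unfold den
    rw [Polynomial.coe_sub, Polynomial.coe_mul, Polynomial.coe_C, Polynomial.coe_pow,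
      Polynomial.coe_X, Polynomial.coe_one, map_sub, map_mul, map_one, PowerSeries.map_C,
      map_pow (PowerSeries.map Complex.ofRealHom), PowerSeries.map_X, Complex.ofRealHom_eq_coe, Complex.ofReal_pow, Complex.ofReal_inv]

omit [Fintype I] in
theorem eval_ne (x : ℝ) (W : Multiset (σ → ℕ)) (z : ℂ) (h : ∀ w ∈ W, (den a x w).eval z ≠ 0) :
    ((W.map (den a x)).prod).eval z ≠ 0 := by
  rw [Polynomial.eval_multiset_prod, Multiset.map_map]
  refine Multiset.prod_ne_zero ?_
  intro h0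
  obtain ⟨w, hw, hw0⟩ := Multiset.mem_map.1 h0
  exact h w hw hw0

/-- multiplication by polynomials in `T` -/
theorem rlc_pow (hRlc : SRlc) (X : ℂ) (φ : Co σ I → ℤ → ℂ)
    (hφ : φ none = fun v => if 1 ≤ v then 1 else 0) (n : ℕ) (g : GR I) :
    Pol (PowerSeries.X ^ n * Lc a X φ g -
      Lc a X φ ((AddMonoidAlgebra.single (fun _ => -1) 1 : GR I) ^ n * g)) := by
  induction n with
  | zero =>
    rw [pow_zero, pow_zero, one_mul, one_mul, sub_self]
    exact Pol.zero
  | succ n ih =>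
    have h1 := ih.poly_mul Polynomial.X
    have h2 := hRlc σ I a X φ hφ ((AddMonoidAlgebra.single (fun _ => -1) 1 : GR I) ^ n * g)
    have h3 := h1.add h2
    have e : ((Polynomial.X : Polynomial ℂ) : PowerSeries ℂ) * (PowerSeries.X ^ n * Lc a X φ g -
        Lc a X φ ((AddMonoidAlgebra.single (fun _ => -1) 1 : GR I) ^ n * g)) +
        (PowerSeries.X * Lc a X φ ((AddMonoidAlgebra.single (fun _ => -1) 1 : GR I) ^ n * g) -
          Lc a X φ (AddMonoidAlgebra.single (fun _ => -1) 1 *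
            ((AddMonoidAlgebra.single (fun _ => -1) 1 : GR I) ^ n * g))) =
        PowerSeries.X ^ (n + 1) * Lc a X φ g -
          Lc a X φ ((AddMonoidAlgebra.single (fun _ => -1) 1 : GR I) ^ (n + 1) * g) := by
      rw [Polynomial.coe_X, ← mul_assoc (AddMonoidAlgebra.single (fun _ => -1) 1 : GR I),
        ← pow_succ']
      ring
    rwa [e] at h3

theorem rlc_poly (hRlc : SRlc) (X : ℂ) (φ : Co σ I → ℤ → ℂ)
    (hφ : φ none = fun v => if 1 ≤ v then 1 else 0) (E : Polynomial ℂ) (g : GR I) :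
    Pol ((E : PowerSeries ℂ) * Lc a X φ g -
      Lc a X φ (Polynomial.aeval (AddMonoidAlgebra.single (fun _ => -1) 1 : GR I) E * g)) := by
  induction E using Polynomial.induction_on' with
  | add E F hE hF =>
    have := hE.add hF
    have e : (E : PowerSeries ℂ) * Lc a X φ g -
        Lc a X φ (Polynomial.aeval (AddMonoidAlgebra.single (fun _ => -1) 1 : GR I) E * g) +
        ((F : PowerSeries ℂ) * Lc a X φ g -
          Lc a X φ (Polynomial.aeval (AddMonoidAlgebra.single (fun _ => -1) 1 : GR I) F * g)) =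
        ((E + F : Polynomial ℂ) : PowerSeries ℂ) * Lc a X φ g - Lc a X φ
          (Polynomial.aeval (AddMonoidAlgebra.single (fun _ => -1) 1 : GR I) (E + F) * g) := by
      rw [Polynomial.coe_add, map_add, add_mul (Polynomial.aeval _ E), map_add]
      ring
    rwa [e] at this
  | monomial n c =>
    have h1 := (rlc_pow a hRlc X φ hφ n g).smul c
    have e : c • (PowerSeries.X ^ n * Lc a X φ g -
        Lc a X φ ((AddMonoidAlgebra.single (fun _ => -1) 1 : GR I) ^ n * g)) =
        ((Polynomial.monomial n c : Polynomial ℂ) : PowerSeries ℂ) * Lc a X φ g - Lc a X φ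
          (Polynomial.aeval (AddMonoidAlgebra.single (fun _ => -1) 1 : GR I)
            (Polynomial.monomial n c) * g) := by
      rw [← Polynomial.C_mul_X_pow_eq_monomial, Polynomial.coe_mul, Polynomial.coe_C,
        Polynomial.coe_pow, Polynomial.coe_X, map_mul (Polynomial.aeval _), Polynomial.aeval_C,
        map_pow (Polynomial.aeval _), Polynomial.aeval_X, ← Algebra.smul_def, smul_mul_assoc, map_smul, smul_sub, mul_assoc,
        ← PowerSeries.smul_eq_C_mul]
    rwa [e] at h1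

end Den

end KEY

open KEY in
theorem sKey (hKpt : SKpt) (hNul : SNul) (hRtb : SRtb) (hRla : SRla) (hRlc : SRlc)
    (hSum : SSum) : SKey := by
  classical
  intro σ I _ _ _ a α K hRec hK hSimp P hP x hx
  have hx0 : 0 < x := zero_lt_one.trans hx
  have hxc : (x : ℂ) ≠ 0 := Complex.ofReal_ne_zero.2 hx0.ne'
  set r : ℝ := x ^ (-(α : ℝ)) with hr
  -- the ideal
  let K' : Ideal (GR I) :=
    { carrier := {h | ∀ g : GR I, RegC r (Lc a ((x : ℂ)⁻¹) (phz P) (g * (h * yy ((x : ℂ)⁻¹) P)))}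
      add_mem' := by
        intro h h' hh hh' g
        rw [add_mul, mul_add, map_add]
        exact (hh g).add (hh' g)
      zero_mem' := by
        intro g
        rw [zero_mul, mul_zero, map_zero]
        exact RegC.zero r
      smul_mem' := by
        intro c h hh g
        have := hh (g * c)
        rwa [smul_eq_mul, mul_assoc c, ← mul_assoc g] }
  have hK' : K' = ⊤ := by
    refine hNul I K' fun p => ?_
    by_cases hp : ‖((pw p fun _ => 1 : ℂˣ) : ℂ)‖ = x ^ (α : ℝ)
    · obtain ⟨h, h1, h2⟩ := hKpt σ I a α K hRec hK hSimp P hP x hx p hp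
      exact ⟨h, fun g => (h2 g).regC r, h1⟩
    · obtain ⟨W, hW, hW2⟩ := hRtb σ I a ∅
      let W1 := W.filter fun w => ((∑ l, w l : ℕ) : ℝ) = -(α : ℝ) * (Nw a w : ℝ)
      let W2 := W.filter fun w => ¬ ((∑ l, w l : ℕ) : ℝ) = -(α : ℝ) * (Nw a w : ℝ)
      have hW12 : W1 + W2 = W := Multiset.filter_add_not _ _
      let E1 : Polynomial ℂ := (W1.map (den a x)).prod
      let E2 : Polynomial ℂ := (W2.map (den a x)).prod
      have hE2 : ∀ z : ℂ, ‖z‖ = r → E2.eval z ≠ 0 := by
        intro z hz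
        refine eval_ne a x W2 z fun w hw => ?_
        have h1 : ¬ ((∑ l, w l : ℕ) : ℝ) = -(α : ℝ) * (Nw a w : ℝ) := (Multiset.mem_filter.1 hw).2
        exact den_eval_ne hx (fun h => h1 h.symm) hz
      have hser : ∀ m : I → ℤ, Pol (((E1 * E2 : Polynomial ℂ) : PowerSeries ℂ) *
          SerC a ((x : ℂ)⁻¹) (shf (phz P) m)) := by
        intro m
        obtain ⟨N0, hN0⟩ := hW2 (1 + ∑ i, (m i).natAbs)
        refine ⟨N0, fun N hN => ?_⟩
        have h1 := hN0 x⁻¹ (shfR (phT (σ := σ) x P ∅) m) (inv_pos.2 hx0)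
          (inv_lt_one_of_one_lt₀ hx) (thr_shfR (phT_thr x P ∅) m)
          (fun ξ hξ => absurd hξ (Finset.notMem_empty ξ)) (fun v hv => if_neg (by omega)) N hN
        have h2 : ((E1 * E2 : Polynomial ℂ) : PowerSeries ℂ) *
            SerC a ((x : ℂ)⁻¹) (shf (phz P) m) = PowerSeries.map Complex.ofRealHom
              (dW a x⁻¹ W * Ser a x⁻¹ (shfR (phT (σ := σ) x P ∅) m)) := by
          have h3 : (E1 * E2 : Polynomial ℂ) = (W.map (den a x)).prod := by
            rw [← hW12, Multiset.map_add, Multiset.prod_add]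
          rw [h3, coe_den, map_mul, ← serC_ofReal, Complex.ofReal_inv, phz_eq x P, shf_cx]
          rfl
        rw [h2, PowerSeries.coeff_map, h1, map_zero]
      have hreg : ∀ g : GR I, RegC r ((E1 : PowerSeries ℂ) *
          Lc a ((x : ℂ)⁻¹) (phz P) g) := by
        intro g
        refine Lc_induction a (fun Φ => RegC r ((E1 : PowerSeries ℂ) * Φ)) ?_ ?_ ?_ ?_ g
        · rw [mul_zero]
          exact RegC.zero r
        · intro Φ Ψ h1 h2
          rw [mul_add]
          exact h1.add h2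
        · intro c Φ h1
          rw [mul_smul_comm]
          exact h1.smul c
        · intro m
          refine RegC.of_mul E2 hE2 ?_
          have h1 := (hser m).regC r
          rwa [Polynomial.coe_mul, mul_comm (E1 : PowerSeries ℂ), mul_assoc] at h1
      refine ⟨Polynomial.aeval (AddMonoidAlgebra.single (fun _ => -1) 1 : GR I) E1, ?_, ?_⟩
      · intro g
        have h1 := hreg (g * yy ((x : ℂ)⁻¹) P)
        have h2 := rlc_poly a hRlc ((x : ℂ)⁻¹) (phz P) rfl E1 (g * yy ((x : ℂ)⁻¹) P)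
        have h3 := h1.sub (h2.regC r)
        rw [sub_sub_cancel] at h3
        rwa [mul_left_comm] at h3
      · rw [← Polynomial.aeval_algHom_apply, Polynomial.coe_aeval_eq_eval]
        refine eval_ne a x W1 _ fun w hw hz => ?_
        obtain ⟨hwW, hw1⟩ := Multiset.mem_filter.1 hw
        obtain ⟨-, hN, -⟩ := hW w hwW
        set z : ℂ := evp p (AddMonoidAlgebra.single (fun _ => -1) 1) with hzdef
        have hznorm : ‖z‖ = ‖((pw p fun _ => 1 : ℂˣ) : ℂ)‖⁻¹ := by
          rw [hzdef, evp_single, one_mul, show (fun _ : I => (-1 : ℤ)) = -(fun _ => 1) from rfl,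
            pw_neg, Units.val_inv_eq_inv_val, norm_inv]
        unfold KEY.den at hz
        rw [Polynomial.eval_sub, Polynomial.eval_one, Polynomial.eval_mul, Polynomial.eval_C,
          Polynomial.eval_pow, Polynomial.eval_X, sub_eq_zero] at hz
        have h1 : ‖((x : ℂ)⁻¹ ^ (∑ l, w l) * z ^ (Nw a w))‖ = 1 := by rw [← hz, norm_one]
        rw [norm_mul, norm_pow, norm_inv, norm_pow, Complex.norm_real, Real.norm_eq_abs,
          abs_of_pos hx0, inv_pow] at h1
        have h5 : x ^ (∑ l, w l) ≠ 0 := (pow_pos hx0 _).ne'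
        have h2 : ‖z‖ ^ (Nw a w) = x ^ (∑ l, w l) := by
          have h6 := congrArg (fun y => x ^ (∑ l, w l) * y) h1
          rwa [show x ^ (∑ l, w l) * ((x ^ (∑ l, w l))⁻¹ * ‖z‖ ^ (Nw a w)) = ‖z‖ ^ (Nw a w) by
            rw [← mul_assoc, mul_inv_cancel₀ h5, one_mul], mul_one] at h6
        have h3 : (x ^ (-(α : ℝ))) ^ (Nw a w) = x ^ (∑ l, w l) := by
          rw [← Real.rpow_natCast (x ^ (-(α : ℝ))) (Nw a w), ← Real.rpow_mul hx0.le, ← hw1,
            Real.rpow_natCast]
        have h4 : ‖z‖ = x ^ (-(α : ℝ)) :=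
          (pow_left_inj₀ (norm_nonneg _) (Real.rpow_nonneg hx0.le _) hN.ne').1 (h2.trans h3.symm)
        rw [hznorm, Real.rpow_neg hx0.le, inv_inj] at h4
        exact hp h4
  have h1 : (1 : GR I) ∈ K' := by
    rw [hK']
    exact Submodule.mem_top
  have h2 := h1 1
  rw [one_mul, one_mul] at h2
  have h3 := steps a hRla hSum hx P Pᶜ (fun i hi => Finset.mem_compl.1 hi) 1
  rw [mul_one, Lc_one] at h3
  unfold yy at h2
  rw [h3] at h2
  have hx1 : (x : ℂ) - 1 ≠ 0 := by
    rw [← Complex.ofReal_one, ← Complex.ofReal_sub]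
    exact Complex.ofReal_ne_zero.2 (sub_pos.2 hx).ne'
  have h4 : (((x : ℂ) - 1) / x) ^ (Pᶜ).card ≠ 0 := pow_ne_zero _ (div_ne_zero hx1 hxc)
  have h5 := h2.smul ((((x : ℂ) - 1) / x) ^ (Pᶜ).card)⁻¹
  rw [smul_smul, inv_mul_cancel₀ h4, one_smul] at h5
  rw [phi_eq, ← serC_ofReal, Complex.ofReal_inv]
  exact h5

end Pool.Newt3
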